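import Mathlib
import Pool.Agent.Helper6.Flow.Final

/-!
Nowhere-zero flows of a finite oriented multigraph: the number of nowhere-zero `ZMod k` flows as a
sum over vertex colourings; the sum over colourings for the subdivided graph of a perfect matching
of half-edges.
-/

set_option autoImplicit false

namespace Pool.Agent.Helper42.OWN.FlowA

open Finset
open Pool.Agent.Helper6.Flow

/-- the number of nowhere-zero flows with values in `ZMod k` of the multigraph with vertex set `V`,
edge set `E` and the edge `e` oriented from `s e` to `t e` -/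
noncomputable def nzf {V E : Type} [Fintype E] [DecidableEq V] (s t : E → V) (k : ℕ) : ℕ :=
  Nat.card {f : E → ZMod k // (∀ e, f e ≠ 0) ∧
    ∀ v, ∑ e ∈ univ.filter (fun e => t e = v), f e = ∑ e ∈ univ.filter (fun e => s e = v), f e}

section Fourier

variable {V E : Type} [Fintype V] [DecidableEq V] [Fintype E] [DecidableEq E]

/-- excess of a function at a vertex -/
def exc {k : ℕ} (s t : E → V) (f : E → ZMod k) (v : V) : ZMod k :=
  ∑ e ∈ univ.filter (fun e => t e = v), f e - ∑ e ∈ univ.filter (fun e => s e = v), f e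

lemma sum_filter_mul {k : ℕ} (t : E → V) (f : E → ZMod k) (σ : V → ZMod k) :
    ∑ v, σ v * ∑ e ∈ univ.filter (fun e => t e = v), f e = ∑ e, f e * σ (t e) := by
  have h : ∀ v, σ v * ∑ e ∈ univ.filter (fun e => t e = v), f e =
      ∑ e, if t e = v then f e * σ (t e) else 0 := by
    intro v
    rw [mul_sum, sum_filter]
    refine sum_congr rfl fun e _ => ?_
    split_ifs with h
    · rw [h, mul_comm]
    · rfl
  rw [sum_congr rfl fun v _ => h v, sum_comm]
  refine sum_congr rfl fun e _ => ?_
  rw [sum_ite_eq]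
  simp

lemma sum_exc {k : ℕ} (s t : E → V) (f : E → ZMod k) (σ : V → ZMod k) :
    ∑ v, σ v * exc s t f v = ∑ e, f e * (σ (t e) - σ (s e)) := by
  simp only [exc, mul_sub, sum_sub_distrib, sum_filter_mul]

lemma addChar_sum {k : ℕ} [NeZero k] {ι : Type} (u : Finset ι) (g : ι → ZMod k) :
    ZMod.stdAddChar (∑ i ∈ u, g i) = ∏ i ∈ u, ZMod.stdAddChar (g i) := by
  classical
  induction u using Finset.induction_on with
  | empty => simp
  | insert a u ha ih => rw [sum_insert ha, prod_insert ha, AddChar.map_add_eq_mul, ih]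

lemma orth {k : ℕ} [NeZero k] (s t : E → V) (f : E → ZMod k) :
    ∑ σ : V → ZMod k, ZMod.stdAddChar (∑ e, f e * (σ (t e) - σ (s e))) =
      if ∀ v, exc s t f v = 0 then (k : ℂ) ^ Fintype.card V else 0 := by
  have h1 : ∀ σ : V → ZMod k, ZMod.stdAddChar (∑ e, f e * (σ (t e) - σ (s e))) =
      ∏ v, (ZMod.stdAddChar (σ v * exc s t f v) : ℂ) := by
    intro σ
    rw [← sum_exc, addChar_sum]
  simp only [h1]
  have h2 := (prod_univ_sum (fun _ : V => (univ : Finset (ZMod k)))
    (fun v x => (ZMod.stdAddChar (x * exc s t f v) : ℂ)))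
  rw [Fintype.piFinset_univ] at h2
  rw [← h2]
  have h3 : ∀ v, ∑ x : ZMod k, (ZMod.stdAddChar (x * exc s t f v) : ℂ) =
      if exc s t f v = 0 then (k : ℂ) else 0 := by
    intro v
    rw [AddChar.sum_mulShift _ (ZMod.isPrimitive_stdAddChar k), ZMod.card]
    split_ifs <;> simp
  simp only [h3]
  by_cases hall : ∀ v, exc s t f v = 0
  · rw [if_pos hall, prod_congr rfl fun v _ => if_pos (hall v), prod_const, card_univ]
  · rw [if_neg hall]
    push Not at hall
    obtain ⟨v, hv⟩ := hall
    exact prod_eq_zero (mem_univ v) (if_neg hv)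

lemma edge_sum {k : ℕ} [NeZero k] (b : ZMod k) :
    ∑ x ∈ univ.erase (0 : ZMod k), (ZMod.stdAddChar (x * b) : ℂ) =
      (k : ℂ) * (if b = 0 then 1 else 0) - 1 := by
  have h := AddChar.sum_mulShift b (ZMod.isPrimitive_stdAddChar k)
  rw [← add_sum_erase _ _ (mem_univ (0 : ZMod k)), zero_mul, AddChar.map_zero_eq_one, ZMod.card] at h
  split_ifs at h ⊢ with hb
  · rw [eq_sub_iff_add_eq, add_comm, h, mul_one]
  · rw [eq_sub_iff_add_eq, add_comm, h]
    simp

theorem potts {k : ℕ} [NeZero k] (s t : E → V) :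
    (k : ℂ) ^ Fintype.card V * (nzf s t k : ℂ) =
      ∑ σ : V → ZMod k, ∏ e : E, ((k : ℂ) * (if Mono σ s(s e, t e) then 1 else 0) - 1) := by
  classical
  have h1 : ∀ σ : V → ZMod k, ∏ e : E, ((k : ℂ) * (if Mono σ s(s e, t e) then 1 else 0) - 1) =
      ∑ f ∈ Fintype.piFinset (fun _ : E => univ.erase (0 : ZMod k)),
        ZMod.stdAddChar (∑ e, f e * (σ (t e) - σ (s e))) := by
    intro σ
    have h2 : ∀ e : E, ((k : ℂ) * (if Mono σ s(s e, t e) then 1 else 0) - 1) =
        ∑ x ∈ univ.erase (0 : ZMod k), (ZMod.stdAddChar (x * (σ (t e) - σ (s e))) : ℂ) := by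
      intro e
      rw [edge_sum]
      congr 2
      simp only [mono_mk, sub_eq_zero, eq_comm]
    rw [prod_congr rfl fun e _ => h2 e, prod_univ_sum]
    refine sum_congr rfl fun f _ => ?_
    rw [addChar_sum]
  rw [sum_congr rfl fun σ _ => h1 σ, sum_comm, sum_congr rfl fun f _ => orth s t f,
    ← sum_filter, sum_const, nsmul_eq_mul, mul_comm]
  congr 2
  rw [nzf, Nat.card_eq_fintype_card, Fintype.card_subtype]
  congr 1
  ext f
  simp only [mem_filter, mem_univ, true_and, Fintype.mem_piFinset, mem_erase, and_true, exc,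
    sub_eq_zero, ne_eq]

end Fourier

end Pool.Agent.Helper42.OWN.FlowA
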