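import Pool.Agent.Helper42.OWN.FlowA

/-!
The cubic multigraph of a perfect matching of half-edges: the sum over vertex colourings of the
subdivided graph is a power of the number of colours times the sum of the multigraph; the flow
polynomial takes the number of nowhere-zero flows; bridges and loops.
-/

set_option autoImplicit false

namespace Pool.Agent.Helper42.OWN.FlowB

open Finset
open Pool.Agent.Helper6.Flow
open Pool.Agent.Helper42.OWN.FlowA

section Matching

variable {N : ℕ} {C : Type} [Fintype C] [DecidableEq C]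

/-- weight of an edge with end colours `a`, `b` -/
def wt (C : Type) [Fintype C] [DecidableEq C] (a b : C) : ℝ :=
  (Fintype.card C : ℝ) * (if a = b then 1 else 0) - 1

lemma wt_conv (a b : C) : ∑ x : C, wt C a x * wt C x b = (Fintype.card C : ℝ) * wt C a b := by
  have h : ∀ x : C, wt C a x * wt C x b =
      (Fintype.card C : ℝ) * (if a = x then ((Fintype.card C : ℝ) * (if x = b then 1 else 0)) else 0)
      - (Fintype.card C : ℝ) * (if a = x then 1 else 0)
      - (Fintype.card C : ℝ) * (if x = b then 1 else 0) + 1 := by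
    intro x
    unfold wt
    split_ifs <;> ring
  rw [sum_congr rfl fun x _ => h x, sum_add_distrib, sum_sub_distrib, sum_sub_distrib,
    ← mul_sum, ← mul_sum, ← mul_sum, sum_ite_eq, sum_ite_eq, sum_ite_eq']
  simp only [mem_univ, if_true, sum_const, card_univ, nsmul_eq_mul, mul_one]
  unfold wt
  ring

lemma wt_symm (a b : C) : wt C a b = wt C b a := by
  unfold wt
  simp only [eq_comm]

/-- the two half-edges of an edge of the matching -/
def half {α : Type} (M : List (α × α)) (p : Fin M.length × Fin 2) : α :=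
  if p.2 = 0 then (M[p.1]).1 else (M[p.1]).2

lemma length_flat {α : Type} (M : List (α × α)) : (flat M).length = 2 * M.length := by
  induction M with
  | nil => rfl
  | cons a M ih =>
    have h : flat (a :: M) = a.1 :: a.2 :: flat M := rfl
    rw [h, List.length_cons, List.length_cons, ih, List.length_cons]
    ring

lemma half_bij {α : Type} [Fintype α] (M : List (α × α))
    (hM : (flat M).Perm (univ : Finset α).toList) : Function.Bijective (half M) := by
  rw [Fintype.bijective_iff_surjective_and_card]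
  constructor
  · intro a
    have ha : a ∈ flat M := hM.symm.subset (by simp)
    unfold flat at ha
    rw [List.mem_flatMap] at ha
    obtain ⟨p, hp, hap⟩ := ha
    obtain ⟨i, hi, rfl⟩ := List.getElem_of_mem hp
    simp only [List.mem_cons, List.not_mem_nil, or_false] at hap
    rcases hap with h | h
    · exact ⟨(⟨i, hi⟩, 0), by rw [half, if_pos rfl]; exact h.symm⟩
    · exact ⟨(⟨i, hi⟩, 1), by rw [half, if_neg (by simp)]; exact h.symm⟩
  · rw [Fintype.card_prod, Fintype.card_fin, Fintype.card_fin, mul_comm, ← length_flat,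
      hM.length_eq, length_toList, card_univ]

lemma potts_sub (M : List ((Fin N × Fin 3) × (Fin N × Fin 3)))
    (hM : (flat M).Perm (univ : Finset (Fin N × Fin 3)).toList) (σ : Fin N → C) :
    ∑ ρ : Fin N × Fin 3 → C, (∏ h : Fin N × Fin 3, wt C (σ h.1) (ρ h)) *
        (M.map (fun p => wt C (ρ p.1) (ρ p.2))).prod =
      ((Fintype.card C : ℝ) ^ 2) ^ M.length *
        ∏ i : Fin M.length, wt C (σ (M[i]).1.1) (σ (M[i]).2.1) := by
  have hb := half_bij M hM
  set e : Fin M.length × Fin 2 ≃ Fin N × Fin 3 := Equiv.ofBijective (half M) hb with he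
  have e0 : ∀ i : Fin M.length, e (i, 0) = (M[i]).1 := fun i => rfl
  have e1 : ∀ i : Fin M.length, e (i, 1) = (M[i]).2 := fun i => rfl
  set G : (i : Fin M.length) → (Fin 2 → C) → ℝ := fun i c =>
    wt C (σ (M[i]).1.1) (c 0) * wt C (c 0) (c 1) * wt C (c 1) (σ (M[i]).2.1) with hG
  have h1 : ∀ ρ : Fin N × Fin 3 → C, (∏ h : Fin N × Fin 3, wt C (σ h.1) (ρ h)) *
        (M.map (fun p => wt C (ρ p.1) (ρ p.2))).prod =
      ∏ i : Fin M.length, G i (fun j => ρ (e (i, j))) := by
    intro ρ
    rw [← Fin.prod_univ_fun_getElem, ← e.prod_comp, Fintype.prod_prod_type, ← prod_mul_distrib]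
    refine prod_congr rfl fun i _ => ?_
    simp only [hG, Fin.prod_univ_two, e0, e1]
    rw [wt_symm (ρ (M[i]).2) (σ (M[i]).2.1)]
    simp only [Fin.getElem_fin]
    ring
  rw [sum_congr rfl fun ρ _ => h1 ρ]
  set E : (Fin N × Fin 3 → C) ≃ (Fin M.length → Fin 2 → C) :=
    (Equiv.arrowCongr e.symm (Equiv.refl C)).trans (Equiv.curry _ _ _) with hE
  have h2 : ∀ ρ : Fin N × Fin 3 → C, ∏ i : Fin M.length, G i (fun j => ρ (e (i, j))) =
      (fun τ : Fin M.length → Fin 2 → C => ∏ i, G i (τ i)) (E ρ) := fun ρ => rfl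
  rw [Fintype.sum_equiv E _ (fun τ : Fin M.length → Fin 2 → C => ∏ i, G i (τ i)) h2]
  have h3 := (prod_univ_sum (fun _ : Fin M.length => (univ : Finset (Fin 2 → C)))
    (fun i c => G i c))
  rw [Fintype.piFinset_univ] at h3
  rw [← h3]
  have h4 : ∀ i, ∑ c : Fin 2 → C, G i c =
      (Fintype.card C : ℝ) ^ 2 * wt C (σ (M[i]).1.1) (σ (M[i]).2.1) := by
    intro i
    rw [← (finTwoArrowEquiv C).symm.sum_comp, Fintype.sum_prod_type_right]
    simp only [hG, finTwoArrowEquiv_symm_apply, Matrix.cons_val_zero, Matrix.cons_val_one]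
    have h5 : ∀ y : C, ∑ x : C, wt C (σ (M[i]).1.1) x * wt C x y * wt C y (σ (M[i]).2.1) =
        (Fintype.card C : ℝ) * (wt C (σ (M[i]).1.1) y * wt C y (σ (M[i]).2.1)) := by
      intro y
      rw [← sum_mul, wt_conv]
      ring
    rw [sum_congr rfl fun y _ => h5 y, ← mul_sum, wt_conv]
    ring
  rw [prod_congr rfl fun i _ => h4 i, prod_mul_distrib, prod_const, card_univ, Fintype.card_fin]

/-- the ends of an edge of the multigraph of the matching -/
def mEnds (M : List ((Fin N × Fin 3) × (Fin N × Fin 3))) (i : Fin M.length) : Sym2 (Fin N) :=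
  s((M[i]).1.1, (M[i]).2.1)

open Classical in
theorem eval_eq_potts (M : List ((Fin N × Fin 3) × (Fin N × Fin 3)))
    (hM : (flat M).Perm (univ : Finset (Fin N × Fin 3)).toList) :
    (Fintype.card C : ℝ) ^ (Fintype.card (Fin N ⊕ (Fin N × Fin 3))) *
        (flowPoly (gr M)).eval (Fintype.card C : ℝ) =
      ((Fintype.card C : ℝ) ^ 2) ^ M.length * ∑ σ : Fin N → C, ∏ i : Fin M.length,
        ((Fintype.card C : ℝ) * (if Mono σ (mEnds M i) then 1 else 0) - 1) := by
  have hnd : (flat M).Nodup := hM.nodup_iff.2 (nodup_toList _)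
  rw [eval_flowPoly (C := C) (gr M),
    ← (Equiv.sumArrowEquivProdArrow (Fin N) (Fin N × Fin 3) C).symm.sum_comp,
    Fintype.sum_prod_type, mul_sum]
  refine sum_congr rfl fun σ _ => ?_
  have h := potts_sub (C := C) M hM σ
  have h2 : ∀ i : Fin M.length, wt C (σ (M[i]).1.1) (σ (M[i]).2.1) =
      ((Fintype.card C : ℝ) * (if Mono σ (mEnds M i) then 1 else 0) - 1) := by
    intro i
    simp only [wt, mEnds, mono_mk]
  rw [prod_congr rfl fun i _ => (h2 i).symm, ← h]
  refine sum_congr rfl fun ρ _ => ?_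
  rw [prod_edges hnd]
  simp only [mono_mk, Equiv.sumArrowEquivProdArrow, Equiv.coe_fn_symm_mk, Sum.elim_inl,
    Sum.elim_inr, wt]

open Classical in
theorem eval_eq_nzf {k : ℕ} [NeZero k] (M : List ((Fin N × Fin 3) × (Fin N × Fin 3)))
    (hM : (flat M).Perm (univ : Finset (Fin N × Fin 3)).toList)
    (s t : Fin M.length → Fin N) (hst : ∀ e, s(s e, t e) = mEnds M e) :
    (flowPoly (gr M)).eval (k : ℝ) = nzf s t k := by
  have hk : (k : ℝ) ≠ 0 := by
    have := NeZero.ne k
    exact_mod_cast this
  have h1 := eval_eq_potts (C := ZMod k) M hM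
  have h2 := potts (k := k) s t
  simp only [hst] at h2
  rw [ZMod.card] at h1
  have h3 : (((k : ℝ) ^ Fintype.card (Fin N) * (nzf s t k : ℝ) : ℝ) : ℂ) =
      ((∑ σ : Fin N → ZMod k, ∏ i : Fin M.length,
        ((k : ℝ) * (if Mono σ (mEnds M i) then 1 else 0) - 1) : ℝ) : ℂ) := by
    push_cast
    rw [h2]
    refine sum_congr rfl fun σ _ => prod_congr rfl fun i _ => ?_
    split_ifs <;> simp
  have h4 := Complex.ofReal_injective h3
  rw [← h4] at h1
  have hlen : 2 * M.length = N * 3 := by
    rw [← length_flat, hM.length_eq, length_toList, card_univ, Fintype.card_prod,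
      Fintype.card_fin, Fintype.card_fin]
  rw [Fintype.card_sum, Fintype.card_prod, Fintype.card_fin, Fintype.card_fin, ← pow_mul, hlen,
    pow_add, mul_assoc, mul_left_comm] at h1
  exact mul_left_cancel₀ (pow_ne_zero _ hk) (mul_left_cancel₀ (pow_ne_zero _ hk) h1)

end Matching

end Pool.Agent.Helper42.OWN.FlowB
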