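import Pool.Agent.Helper42.OWN.FlowB

/-!
The negative coefficient found by the program has index at most the number of rounds: the proof of
soundness of Helper6.Flow.Sound, with the bound.
-/

set_option autoImplicit false

namespace Pool.Agent.Helper42.OWN.FlowC

open Finset Pool.Agent.Helper6.Flow Pool.Agent.Helper6.Flow.Prog

variable {p r : ℕ}

theorem loop_sound_le (hr : 0 < r) (hp : 2 * r ≤ p) (ds : List ℕ) (K : ℕ) (hds : Asc cS 1 K ds) :
    ∀ (fuel m pm rm X W : ℕ) (b a V0 V1 V2 : List ℕ), m + fuel ≤ K →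
    (pm : ℝ) = (p : ℝ) ^ m → (rm : ℝ) = 2 ^ m → (X : ℝ) = VS p r 0 m 0 →
    (W : ℝ) = VS p r (0 - 1) m 0 → Desc (bS p r) m b → Desc (aS p r) m a →
    Desc (VS p r 0 m) m V0 → Desc (VS p r 1 m) m V1 → Desc (VS p r 2 m) m V2 →
    loop p r ds fuel m pm rm X W b a V0 V1 V2 = true → ∃ n ≤ K, aR (xx p r) n < 0 := by
  intro fuel
  induction fuel with
  | zero =>
    intro m pm rm X W b a V0 V1 V2 _ _ _ _ _ _ _ _ _ _ h
    exact absurd h (by simp [loop])
  | succ fuel ih =>
    intro m pm rm X W b a V0 V1 V2 hK hpm hrm hX hW hbl hal hV0 hV1 hV2 h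
    have hb : body p r ds (loop p r ds fuel) m pm rm X W b a V0 V1 V2 = true := h
    clear h
    unfold body at hb
    simp only [seqN_eq] at hb
    replace hb := chk_eq _ _ hb
    obtain ⟨hb1, hb⟩ := hb
    replace hb := chk_eq _ _ hb
    obtain ⟨hx1, hb⟩ := hb
    replace hb := chk_eq _ _ hb
    obtain ⟨hw1, hb⟩ := hb
    generalize hbm : ((p + r) * h1 r ds b 1 - r * m.succ * h0 r ds b) / m.succ = bm at hb1 hb
    generalize hXn : (12 * (6 * m * r + p) * (6 * m * r + p + 3 * r) * X +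
        6 * (6 * m * r + p + 2 * r) * (6 * m * r + p - 2 * r) * W) / m.succ = Xn at hx1 hw1 hb
    generalize hWn : Xn - 72 * r * (6 * m * r + p) * X = Wn at hw1 hb
    clear hbm hXn hWn
    simp only [tl_cons] at hb
    replace hb1 := Nat.eq_of_beq_eq_true hb1
    replace hx1 := Nat.eq_of_beq_eq_true hx1
    replace hw1 := Nat.eq_of_beq_eq_true hw1
    -- real versions
    have hAsc : Asc cS 1 (m + 1) ds := hds.mono (by omega)
    have hS0 := h0_spec r cS (bS p r) m 1 ds b hAsc hbl
    have hS1 := h1_spec r cS (bS p r) m 1 ds b hAsc hbl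
    have hm1 : ((m : ℝ) + 1) ≠ 0 := by positivity
    have hbmR : (bm : ℝ) = bS p r (m + 1) := by
      have h2 := bS_rec (p := p) hr m
      rw [← hS0, ← hS1] at h2
      have h3 : ((m.succ * bm + r * m.succ * h0 r ds b : ℕ) : ℝ) =
          (((p + r) * h1 r ds b 1 : ℕ) : ℝ) := by rw [hb1]
      push_cast at h3
      apply mul_left_cancel₀ hm1
      linear_combination h3 - h2
    have hXnR : (Xn : ℝ) = VS p r 0 (m + 1) 0 := by
      have h2 := X_rec (p := p) hr m
      rw [← hX, ← hW] at h2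
      have h3 : ((m.succ * Xn : ℕ) : ℝ) =
          ((12 * (6 * m * r + p) * (6 * m * r + p + 3 * r) * X +
          6 * (6 * m * r + p + 2 * r) * (6 * m * r + p - 2 * r) * W : ℕ) : ℝ) := by rw [hx1]
      have h4 : ((6 * m * r + p - 2 * r : ℕ) : ℝ) = 6 * m * r + p - 2 * r := by
        rw [Nat.cast_sub (by omega)]
        push_cast
        ring
      rw [Nat.cast_add, Nat.cast_mul _ W, Nat.cast_mul _ (6 * m * r + p - 2 * r), h4] at h3
      push_cast at h3
      apply mul_left_cancel₀ hm1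
      linear_combination h3 - h2
    have hWnR : (Wn : ℝ) = VS p r (0 - 1) (m + 1) 0 := by
      have h2 := VS_rec (p := p) hr 0 m 0 (Nat.zero_le _)
      rw [← hX, ← hXnR] at h2
      have h3 : ((Wn + 72 * r * (6 * m * r + p) * X : ℕ) : ℝ) = (Xn : ℝ) := by rw [hw1]
      push_cast at h3
      linear_combination h3 + h2
    -- the new lists
    have D0 : Desc (VS p r 0 (m + 1)) m
        (step0 (72 * r * (6 * m * r + p)) Xn (tl V2) V0) := by
      refine step0_spec _ _ (VS p r 0 m) (VS p r 2 m) _ hXnR m _ _ hV2.tl hV0 ?_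
      intro i hi
      rw [VS_rec hr 0 m (i + 1) (by omega), VS_shift]
      push_cast
      ring
    generalize step0 (72 * r * (6 * m * r + p)) Xn (tl V2) V0 = L0 at hb D0
    have D1 : Desc (VS p r 1 (m + 1)) m
        (step1 (72 * r * (6 * m * r + p) + 144 * r * r) L0 V1) := by
      refine step1_spec _ _ _ _ m _ _ D0 hV1 ?_
      intro i hi
      rw [VS_rec hr 1 m i hi, sub_self]
      push_cast
      ring
    generalize step1 (72 * r * (6 * m * r + p) + 144 * r * r) L0 V1 = L1 at hb D1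
    have D2 : Desc (VS p r 2 (m + 1)) m
        (step1 (72 * r * (6 * m * r + p) + 144 * r * r + 144 * r * r) L1 V2) := by
      refine step1_spec _ _ _ _ m _ _ D1 hV2 ?_
      intro i hi
      rw [VS_rec hr 2 m i hi, show (2 : ℝ) - 1 = 1 by norm_num]
      push_cast
      ring
    generalize step1 (72 * r * (6 * m * r + p) + 144 * r * r + 144 * r * r) L1 V2 = L2 at hb D2
    -- the dot product
    have E0' : Desc (VS p r 0 (m + 1)) (m + 1) (1 :: L0) :=
      ⟨1, L0, rfl, by rw [VS_top]; norm_num, D0⟩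
    have E1' : Desc (VS p r 1 (m + 1)) (m + 1) (1 :: L1) :=
      ⟨1, L1, rfl, by rw [VS_top]; norm_num, D1⟩
    have E2' : Desc (VS p r 2 (m + 1)) (m + 1) (1 :: L2) :=
      ⟨1, L2, rfl, by rw [VS_top]; norm_num, D2⟩
    obtain ⟨t, ht, htR⟩ := dot1_spec _ (aS p r) (VS p r 0 (m + 1)) m a L0 0 hal D0
    rw [ht] at hb
    have hrec := aS_rec (p := p) hr (m + 1)
    have htR' : (t : ℝ) = ∑ i ∈ range (m + 1), 2 ^ i * (aS p r i * VS p r 0 (m + 1) i) := by
      rw [htR]
      simp
    rw [← htR', ← hbmR] at hrec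
    have hpm' : ((pm * p : ℕ) : ℝ) = (p : ℝ) ^ (m + 1) := by
      push_cast
      rw [hpm, pow_succ]
    have hrm' : ((rm * 2 : ℕ) : ℝ) = 2 ^ (m + 1) := by
      push_cast
      rw [hrm, pow_succ]
    rw [← hpm', ← hrm'] at hrec
    cases hle : Nat.ble t (pm * p * bm) with
    | false =>
      rw [hle] at hb
      have hlt : pm * p * bm < t := by
        by_contra hcon
        push Not at hcon
        rw [Nat.ble_eq_true_of_le hcon] at hle
        exact absurd hle (by decide)
      refine ⟨m + 1, by omega, ?_⟩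
      have h5 : (((pm * p * bm : ℕ)) : ℝ) < t := by exact_mod_cast hlt
      have h6 : ((rm * 2 : ℕ) : ℝ) * aS p r (m + 1) < 0 := by
        rw [hrec]
        push_cast at h5 ⊢
        linarith
      rw [hrm', aS] at h6
      have h7 : (0 : ℝ) < 2 ^ (m + 1) * (2 * (r : ℝ) ^ 2) ^ (m + 1) := by positivity
      by_contra hcon
      push Not at hcon
      have := mul_nonneg h7.le hcon
      linarith
    | true =>
      rw [hle] at hb
      have hb2 := chk_eq _ _ hb
      obtain ⟨ha1, hb3⟩ := hb2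
      generalize hAm : (pm * p * bm - t) / (rm * 2) = am at ha1 hb3
      clear hAm
      replace ha1 := Nat.eq_of_beq_eq_true ha1
      have hamR : (am : ℝ) = aS p r (m + 1) := by
        have h8 : ((rm * 2 * am + t : ℕ) : ℝ) = ((pm * p * bm : ℕ) : ℝ) := by rw [ha1]
        have h9 : ((rm * 2 : ℕ) : ℝ) ≠ 0 := by
          rw [hrm']
          positivity
        apply mul_left_cancel₀ h9
        rw [hrec]
        push_cast at h8 ⊢
        linear_combination h8
      exact ih (m + 1) (pm * p) (rm * 2) Xn Wn (bm :: b) (am :: a) (1 :: L0) (1 :: L1) (1 :: L2)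
        (by omega) hpm' hrm' hXnR hWnR ⟨bm, b, rfl, hbmR, hbl⟩ ⟨am, a, rfl, hamR, hal⟩
        E0' E1' E2' hb3

theorem run_sound_le (M : ℕ) (hr : 0 < r) (hp : 2 * r ≤ p) (h : run p r M = true) :
    ∃ n ≤ M, aR (xx p r) n < 0 := by
  obtain ⟨h1, h2⟩ := chk_eq _ _ h
  have hds : Asc cS (0 + 1) M (mkD M 1 1) := by
    refine chkD_sound M 0 1 _ ?_ h1
    simp [cS, cc, mu]
  have one : ∀ f : ℕ → ℝ, f 0 = 1 → Desc f 0 [1] := fun f hf => ⟨1, rfl, by rw [hf]; norm_num⟩
  refine loop_sound_le hr hp (mkD M 1 1) M hds M 0 1 1 1 1 [1] [1] [1] [1] [1] (by omega)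
    (by norm_num) (by norm_num) ?_ ?_ (one _ ?_) (one _ ?_) (one _ ?_) (one _ ?_) (one _ ?_) h2
  · rw [VS_top]; norm_num
  · rw [VS_top]; norm_num
  · rw [bS, pow_zero, bR_zero, one_mul]
  · rw [aS, aR_eq]
    simp [bR_zero]
  · rw [VS_top]
  · rw [VS_top]
  · rw [VS_top]

end Pool.Agent.Helper42.OWN.FlowC
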