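import Pool.Agent.Helper42.OWN.FlowC
import Pool.Agent.Helper6.Flow.Eval

/-!
A cubic graph with a real flow root above `193/32`: no loops, no bridges, the polynomial with
integer coefficients, the root.
-/

set_option autoImplicit false

namespace Pool.Agent.Helper42.OWN.FlowD

open Finset
open Pool.Agent.Helper6.Flow
open Pool.Agent.Helper42.OWN.FlowA
open Pool.Agent.Helper42.OWN.FlowB
open Pool.Agent.Helper42.OWN.FlowC

/-! ### The negative value -/

open Classical in
theorem exists_neg_le : ∃ (m : ℕ) (M : List ((Fin (2 * m) × Fin 3) × (Fin (2 * m) × Fin 3))),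
    m ≤ 452 ∧ (flat M).Perm (univ : Finset (Fin (2 * m) × Fin 3)).toList ∧
      (flowPoly (gr M)).eval ((193 : ℝ) / 32) < 0 := by
  obtain ⟨m, hle, hm⟩ := run_sound_le (p := 193) (r := 32) 452 (by norm_num) (by norm_num)
    Prog.run_true
  have hx : xx 193 32 = (193 : ℝ) / 32 := by
    rw [xx]
    norm_num
  rw [hx] at hm
  by_contra hcon
  push Not at hcon
  have hlen : (univ : Finset (Fin (2 * m) × Fin 3)).toList.length = 2 * (3 * m) := by
    rw [length_toList, card_univ, Fintype.card_prod, Fintype.card_fin, Fintype.card_fin]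
    ring
  have h1 : 0 ≤ (Rpoly m).eval ((193 : ℝ) / 32) := by
    rw [eval_Rpoly]
    refine List.sum_nonneg ?_
    intro y hy
    rw [List.mem_map] at hy
    obtain ⟨M, hM, rfl⟩ := hy
    exact hcon m M hle (perm_flat hlen hM)
  rw [eval_Rpoly_real] at h1
  have h2 : (0 : ℝ) < (2 * m).factorial := by positivity
  have := mul_neg_of_pos_of_neg h2 hm
  linarith

/-! ### Flows and cuts -/

section Cuts

variable {V E : Type} [Fintype V] [DecidableEq V] [Fintype E] [DecidableEq E]

/-- If there is a nowhere-zero flow, no cut consists of one edge. -/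
lemma cut {k : ℕ} (s t : E → V) (f : E → ZMod k) (h0 : ∀ e, f e ≠ 0)
    (hf : ∀ v, ∑ e ∈ univ.filter (fun e => t e = v), f e =
      ∑ e ∈ univ.filter (fun e => s e = v), f e)
    (S : Set V) (e : E) (he : ∃ a ∈ S, ∃ b ∉ S, s(s e, t e) = s(a, b)) :
    ∃ e', e' ≠ e ∧ ∃ a ∈ S, ∃ b ∉ S, s(s e', t e') = s(a, b) := by
  classical
  by_contra hcon
  push Not at hcon
  have h1 := sum_exc s t f (fun v => if v ∈ S then 1 else 0)
  have h2 : ∀ v, exc s t f v = 0 := fun v => sub_eq_zero.2 (hf v)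
  simp only [h2, mul_zero, sum_const_zero] at h1
  rw [← add_sum_erase _ _ (mem_univ e), sum_eq_zero, add_zero] at h1
  · obtain ⟨a, ha, b, hb, hab⟩ := he
    rw [Sym2.eq_iff] at hab
    rcases hab with ⟨h3, h4⟩ | ⟨h3, h4⟩
    · rw [h3, h4, if_pos ha, if_neg hb] at h1
      exact h0 e (by simpa using h1.symm)
    · rw [h3, h4, if_pos ha, if_neg hb] at h1
      exact h0 e (by simpa using h1.symm)
  · intro e' he'
    have hne : e' ≠ e := (mem_erase.1 he').1
    have h3 := hcon e' hne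
    by_cases hs : s e' ∈ S
    · by_cases ht : t e' ∈ S
      · rw [if_pos hs, if_pos ht, sub_self, mul_zero]
      · exact absurd rfl (h3 (s e') hs (t e') ht)
    · by_cases ht : t e' ∈ S
      · exact absurd Sym2.eq_swap (h3 (t e') ht (s e') hs)
      · rw [if_neg hs, if_neg ht, sub_self, mul_zero]

end Cuts

/-! ### Degrees -/

section Degree

variable {N : ℕ}

lemma degree (M : List ((Fin N × Fin 3) × (Fin N × Fin 3)))
    (hM : (flat M).Perm (univ : Finset (Fin N × Fin 3)).toList) (v : Fin N) :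
    (univ.filter (fun i : Fin M.length => (M[i]).1.1 = v)).card +
      (univ.filter (fun i : Fin M.length => (M[i]).2.1 = v)).card = 3 := by
  have hb := half_bij M hM
  set e : Fin M.length × Fin 2 ≃ Fin N × Fin 3 := Equiv.ofBijective (half M) hb with he
  have e0 : ∀ i : Fin M.length, e (i, 0) = (M[i]).1 := fun i => rfl
  have e1 : ∀ i : Fin M.length, e (i, 1) = (M[i]).2 := fun i => rfl
  have h1 : ∑ h : Fin N × Fin 3, (if h.1 = v then 1 else 0) = 3 := by
    have h2 : ∀ x : Fin N, ∑ y : Fin 3, (if ((x, y) : Fin N × Fin 3).1 = v then 1 else 0) =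
        if x = v then 3 else 0 := by
      intro x
      by_cases h : x = v <;> simp [h]
    rw [Fintype.sum_prod_type, sum_congr rfl fun x _ => h2 x, sum_ite_eq', if_pos (mem_univ v)]
  rw [← e.sum_comp, Fintype.sum_prod_type] at h1
  simp only [Fin.sum_univ_two, e0, e1] at h1
  rw [sum_add_distrib, ← card_filter, ← card_filter] at h1
  exact h1

end Degree

section Cubic

variable {V E : Type} [Fintype V] [DecidableEq V] [Fintype E] [DecidableEq E]

omit [Fintype V] in
/-- degree three (loops counted twice) and no bridge imply that there are no loops -/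
lemma loopless (s t : E → V)
    (hdeg : ∀ v, (univ.filter (fun e => s e = v)).card +
      (univ.filter (fun e => t e = v)).card = 3)
    (hcut : ∀ (S : Set V) (e : E), (∃ a ∈ S, ∃ b ∉ S, s(s e, t e) = s(a, b)) →
      ∃ e', e' ≠ e ∧ ∃ a ∈ S, ∃ b ∉ S, s(s e', t e') = s(a, b)) (e : E) : s e ≠ t e := by
  intro hst
  set v := s e with hv
  have h1 := hdeg v
  set A := univ.filter (fun e => s e = v) with hA
  set B := univ.filter (fun e => t e = v) with hB
  have h2 : e ∈ A ∩ B := by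
    rw [mem_inter, hA, hB, mem_filter, mem_filter]
    exact ⟨⟨mem_univ _, hv.symm⟩, ⟨mem_univ _, hst.symm⟩⟩
  have h3 : 0 < (A ∩ B).card := card_pos.2 ⟨e, h2⟩
  have h4 := card_sdiff_add_card_inter A B
  have h5 := card_sdiff_add_card_inter B A
  rw [inter_comm B A] at h5
  have h6 : (A \ B).card + (B \ A).card = 1 := by omega
  have key : ∀ e' : E, (∃ a ∈ ({v} : Set V), ∃ b ∉ ({v} : Set V), s(s e', t e') = s(a, b)) ↔
      e' ∈ A \ B ∨ e' ∈ B \ A := by
    intro e'
    simp only [Set.mem_singleton_iff, hA, hB, mem_sdiff, mem_filter, mem_univ, true_and,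
      Sym2.eq_iff]
    constructor
    · rintro ⟨a, rfl, b, hb, ⟨h7, h8⟩ | ⟨h7, h8⟩⟩
      · left
        exact ⟨h7, by rw [h8]; exact hb⟩
      · right
        exact ⟨h8, by rw [h7]; exact hb⟩
    · rintro (⟨h7, h8⟩ | ⟨h7, h8⟩)
      · exact ⟨v, rfl, t e', h8, Or.inl ⟨h7, rfl⟩⟩
      · exact ⟨v, rfl, s e', h8, Or.inr ⟨rfl, h7⟩⟩
  have hD : Disjoint (A \ B) (B \ A) := by
    rw [disjoint_left]
    intro x hx hx'
    exact (mem_sdiff.1 hx).2 (mem_sdiff.1 hx').1
  have h7 : ((A \ B) ∪ (B \ A)).card = 1 := by rw [card_union_of_disjoint hD, h6]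
  obtain ⟨x, hx⟩ := card_eq_one.1 h7
  have hx' : x ∈ (A \ B) ∪ (B \ A) := by rw [hx]; exact mem_singleton_self x
  obtain ⟨y, hyx, hy⟩ := hcut {v} x ((key x).2 (mem_union.1 hx'))
  have hy' : y ∈ (A \ B) ∪ (B \ A) := mem_union.2 ((key y).1 hy)
  rw [hx, mem_singleton] at hy'
  exact hyx hy'

omit [Fintype V] in
lemma cubic (s t : E → V)
    (hdeg : ∀ v, (univ.filter (fun e => s e = v)).card +
      (univ.filter (fun e => t e = v)).card = 3)
    (hloop : ∀ e, s e ≠ t e) (v : V) :
    (univ.filter (fun e => v ∈ s(s e, t e))).card = 3 := by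
  rw [← hdeg v, ← card_union_of_disjoint]
  · congr 1
    ext e
    simp only [mem_filter, mem_univ, true_and, Sym2.mem_iff, mem_union, eq_comm]
  · rw [disjoint_left]
    intro e he he'
    rw [mem_filter] at he he'
    exact hloop e (he.2.trans he'.2.symm)

end Cubic

/-! ### The polynomial with integer coefficients -/

section Integer

variable {V : Type} [Fintype V] [DecidableEq V]

/-- the flow polynomial with integer coefficients -/
noncomputable def flowPolyZ (G : SimpleGraph V) [DecidableRel G.Adj] : Polynomial ℤ :=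
  ∑ A ∈ G.edgeFinset.powerset,
    Polynomial.C ((-1 : ℤ) ^ (G.edgeFinset.card - A.card)) *
      Polynomial.X ^ (A.card +
        Nat.card (SimpleGraph.fromEdgeSet (A : Set (Sym2 V))).ConnectedComponent - Fintype.card V)

lemma map_flowPolyZ (G : SimpleGraph V) [DecidableRel G.Adj] :
    (flowPolyZ G).map (Int.castRingHom ℝ) = flowPoly G := by
  rw [flowPolyZ, flowPoly, Polynomial.map_sum]
  refine sum_congr rfl fun A _ => ?_
  rw [Polynomial.map_mul, Polynomial.map_pow, Polynomial.map_X, Polynomial.map_C]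
  simp

lemma eval_flowPolyZ (G : SimpleGraph V) [DecidableRel G.Adj] (k : ℕ) :
    (((flowPolyZ G).eval (k : ℤ) : ℤ) : ℝ) = (flowPoly G).eval (k : ℝ) := by
  rw [← map_flowPolyZ]
  have h := Polynomial.eval_intCast_map (Int.castRingHom ℝ) (flowPolyZ G) (k : ℤ)
  simp only [Int.cast_natCast, eq_intCast] at h
  exact h.symm

end Integer

/-! ### The graph -/

/-- A loopless bridgeless cubic multigraph whose flow polynomial has a real root above `193/32`. -/
theorem main :
    ∃ (n : ℕ) (ends : Fin (3 * n) → Sym2 (Fin (2 * n))) (Q : Polynomial ℤ) (x : ℝ),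
      n ≤ 452 ∧
      (∀ e, ¬ (ends e).IsDiag) ∧
      (∀ v, (univ.filter (fun e => v ∈ ends e)).card = 3) ∧
      (∀ (S : Set (Fin (2 * n))) (e : Fin (3 * n)), (∃ a ∈ S, ∃ b ∉ S, ends e = s(a, b)) →
        ∃ e', e' ≠ e ∧ ∃ a ∈ S, ∃ b ∉ S, ends e' = s(a, b)) ∧
      (∀ s t : Fin (3 * n) → Fin (2 * n), (∀ e, s(s e, t e) = ends e) → ∀ k : ℕ, 1 ≤ k →
        Q.eval (k : ℤ) = Nat.card {f : Fin (3 * n) → ZMod k // (∀ e, f e ≠ 0) ∧
          ∀ v, ∑ e ∈ univ.filter (fun e => t e = v), f e =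
            ∑ e ∈ univ.filter (fun e => s e = v), f e}) ∧
      Q ≠ 0 ∧ Polynomial.aeval x Q = 0 ∧ 193 / 32 < x ∧ x ≤ 7 := by
  classical
  obtain ⟨n, M, hn, hM, hneg⟩ := exists_neg_le
  have hlen : M.length = 3 * n := by
    have h : 2 * M.length = (2 * n) * 3 := by
      rw [← length_flat, hM.length_eq, length_toList, card_univ, Fintype.card_prod,
        Fintype.card_fin, Fintype.card_fin]
    omega
  -- all properties with the edge set `Fin M.length`
  suffices hsuff : ∃ (ends : Fin M.length → Sym2 (Fin (2 * n))) (Q : Polynomial ℤ) (x : ℝ),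
      (∀ e, ¬ (ends e).IsDiag) ∧
      (∀ v, (univ.filter (fun e => v ∈ ends e)).card = 3) ∧
      (∀ (S : Set (Fin (2 * n))) (e : Fin M.length), (∃ a ∈ S, ∃ b ∉ S, ends e = s(a, b)) →
        ∃ e', e' ≠ e ∧ ∃ a ∈ S, ∃ b ∉ S, ends e' = s(a, b)) ∧
      (∀ s t : Fin M.length → Fin (2 * n), (∀ e, s(s e, t e) = ends e) → ∀ k : ℕ, 1 ≤ k →
        Q.eval (k : ℤ) = Nat.card {f : Fin M.length → ZMod k // (∀ e, f e ≠ 0) ∧
          ∀ v, ∑ e ∈ univ.filter (fun e => t e = v), f e =
            ∑ e ∈ univ.filter (fun e => s e = v), f e}) ∧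
      Q ≠ 0 ∧ Polynomial.aeval x Q = 0 ∧ 193 / 32 < x ∧ x ≤ 7 by
    rw [hlen] at hsuff
    obtain ⟨ends, Q, x, h⟩ := hsuff
    exact ⟨n, ends, Q, x, hn, h⟩
  set s0 : Fin M.length → Fin (2 * n) := fun i => (M[i]).1.1 with hs0
  set t0 : Fin M.length → Fin (2 * n) := fun i => (M[i]).2.1 with ht0
  have hst : ∀ e, s(s0 e, t0 e) = mEnds M e := fun e => rfl
  have hcount : ∀ s t : Fin M.length → Fin (2 * n), (∀ e, s(s e, t e) = mEnds M e) → ∀ k : ℕ,
      1 ≤ k → (flowPolyZ (gr M)).eval (k : ℤ) = nzf s t k := by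
    intro s t h k hk
    have : NeZero k := ⟨by omega⟩
    have h1 := eval_eq_nzf (k := k) M hM s t h
    rw [← eval_flowPolyZ] at h1
    exact_mod_cast h1
  have hQ : flowPolyZ (gr M) ≠ 0 := by
    intro h
    have h1 := map_flowPolyZ (gr M)
    rw [h, Polynomial.map_zero] at h1
    rw [← h1, Polynomial.eval_zero] at hneg
    exact lt_irrefl _ hneg
  -- a nowhere-zero flow
  obtain ⟨k, hk, hnz⟩ : ∃ k : ℕ, 1 ≤ k ∧ nzf s0 t0 k ≠ 0 := by
    by_contra hcon
    push Not at hcon
    apply hQ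
    refine Polynomial.eq_zero_of_infinite_isRoot _ ?_
    refine Set.Infinite.mono (s := Set.range (fun j : ℕ => ((j + 1 : ℕ) : ℤ))) ?_
      (Set.infinite_range_of_injective ?_)
    · rintro _ ⟨j, rfl⟩
      show (flowPolyZ (gr M)).eval (((j + 1 : ℕ)) : ℤ) = 0
      rw [hcount s0 t0 hst (j + 1) (by omega), hcon (j + 1) (by omega), Nat.cast_zero]
    · intro a b hab
      have : ((a + 1 : ℕ) : ℤ) = ((b + 1 : ℕ) : ℤ) := hab
      omega
  obtain ⟨⟨f, hf0, hf⟩⟩ : Nonempty {f : Fin M.length → ZMod k // (∀ e, f e ≠ 0) ∧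
      ∀ v, ∑ e ∈ univ.filter (fun e => t0 e = v), f e =
        ∑ e ∈ univ.filter (fun e => s0 e = v), f e} := by
    by_contra hcon
    rw [not_nonempty_iff] at hcon
    exact hnz Nat.card_of_isEmpty
  have hcut := cut s0 t0 f hf0 hf
  have hdeg := degree M hM
  have hloop := loopless s0 t0 hdeg hcut
  -- the root
  have h7 : 0 ≤ (flowPoly (gr M)).eval (7 : ℝ) := by
    have h := eval_flowPolyZ (gr M) 7
    rw [hcount s0 t0 hst 7 (by norm_num)] at h
    have h8 : (((7 : ℕ)) : ℝ) = 7 := by norm_num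
    rw [h8] at h
    rw [← h]
    positivity
  have hc : ContinuousOn (fun x => (flowPoly (gr M)).eval x) (Set.Icc ((193 : ℝ) / 32) 7) :=
    (flowPoly (gr M)).continuous.continuousOn
  obtain ⟨x, hx, hx0⟩ := intermediate_value_Icc (by norm_num) hc
    (⟨hneg.le, h7⟩ : (0 : ℝ) ∈ Set.Icc
      ((flowPoly (gr M)).eval ((193 : ℝ) / 32)) ((flowPoly (gr M)).eval 7))
  refine ⟨mEnds M, flowPolyZ (gr M), x, ?_, ?_, ?_, ?_, hQ, ?_, ?_, hx.2⟩
  · intro e he
    rw [← hst, Sym2.mk_isDiag_iff] at he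
    exact hloop e he
  · intro v
    exact cubic s0 t0 hdeg hloop v
  · intro S e he
    exact hcut S e he
  · intro s t h k hk
    exact hcount s t h k hk
  · have h1 := map_flowPolyZ (gr M)
    rw [Polynomial.aeval_def, ← Polynomial.eval_map]
    have h2 : algebraMap ℤ ℝ = Int.castRingHom ℝ := rfl
    rw [h2, h1]
    exact hx0
  · refine lt_of_le_of_ne hx.1 ?_
    rintro rfl
    exact absurd hx0 hneg.ne

end Pool.Agent.Helper42.OWN.FlowD
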